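import Pool.Agent.Helper8.DP2.Defs
import Pool.Agent.Helper1.DP2.NormBasic
import Pool.Agent.Helper1.DP2.Norm2
import Pool.Agent.Helper4.DP2.Sq
import Pool.Agent.Helper28.DP2.Alg
import Pool.Agent.Helper22.DP2.Primitive

set_option autoImplicit false

namespace Pool.Agent.Helper8.DP2

open Quaternion

private theorem h20_lin_map {R S : Type*} [CommRing R] [CommRing S] (f : R →+* S) (m n : ℤ)
    (x y z : R) (i : Fin 7) : f (lin m n x y z i) = lin m n (f x) (f y) (f z) i := by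
  fin_cases i <;> simp [lin]

private theorem h20_com_map {R S : Type*} [CommRing R] [CommRing S] (f : R →+* S) (m n : ℤ)
    (x y z : R) (i : Fin 7) : f (com m n x y z i) = com m n (f x) (f y) (f z) i := by
  fin_cases i <;> simp [com, kap, map_ofNat]

private theorem h20_qua_map {R S : Type*} [CommRing R] [CommRing S] (f : R →+* S) (m n : ℤ)
    (x y z : R) (i : Fin 7) : f (qua m n x y z i) = qua m n (f x) (f y) (f z) i := by
  fin_cases i <;> simp [qua]

private theorem h20_F_map {R S : Type*} [CommRing R] [CommRing S] (f : R →+* S) (m n : ℤ)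
    (x y z : R) : f (F m n x y z) = F m n (f x) (f y) (f z) := by
  simp [F, map_ofNat]

private theorem h20_key {R : Type*} [CommRing R] {m n d : ℤ} (x y z w : R) (i : Fin 7)
    (h : w ^ 2 = (d : R) * F m n x y z) :
    lin m n x y z i * ((d : R) * com m n x y z i) =
      (scl m n i * w) ^ 2 - (d : R) * qua m n x y z i ^ 2 := by
  have hb := basic m n x y z i
  rw [mul_pow, h]
  linear_combination (-(d : R)) * hb

private theorem h20_unit_of {p : ℕ} [Fact p.Prime] (u : ℤ_[p])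
    (h : PadicInt.toZMod u ≠ 0) : IsUnit u := by
  rw [PadicInt.isUnit_iff]
  by_contra hne
  have h1 : ‖u‖ < 1 := lt_of_le_of_ne u.norm_le_one hne
  apply h
  have h2 : u ∈ IsLocalRing.maximalIdeal ℤ_[p] := by
    rw [IsLocalRing.mem_maximalIdeal, mem_nonunits_iff, PadicInt.isUnit_iff]
    exact hne
  rw [← PadicInt.ker_toZMod] at h2
  exact h2

private theorem h20_ne {p : ℕ} [Fact p.Prime] {u : ℤ_[p]} (h : u ≠ 0) : (u : ℚ_[p]) ≠ 0 :=
  fun h0 => h (Subtype.ext h0)

private theorem h20_ent {p : ℕ} [Fact p.Prime] {m n d : ℤ} (hp : p ≠ 2)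
    (hb : ¬ (p : ℤ) ∣ bad m n)
    (hd : ¬ (p : ℤ) ∣ d) (hs : ¬ IsSquare (d : ℚ_[p])) (Q : Pt m n d ℚ_[p])
    (x y z w : ℤ_[p]) (hx : Q.x = x) (hy : Q.y = y) (hz : Q.z = z) (hw : Q.w = w)
    (hu : IsUnit x ∨ IsUnit y ∨ IsUnit z) (i : Fin 7) : IsN ℚ_[p] (d : ℚ_[p]) (ent Q i) := by
  classical
  have hd0 : d ≠ 0 := by rintro rfl; exact hd (dvd_zero _)
  have hdK : (d : ℚ_[p]) ≠ 0 := by exact_mod_cast hd0
  have hdu : IsUnit ((d : ℤ) : ℤ_[p]) := by
    apply h20_unit_of
    rw [map_intCast]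
    intro h
    exact hd ((ZMod.intCast_zmod_eq_zero_iff_dvd d p).1 h)
  have hlin : lin m n Q.x Q.y Q.z i = ((lin m n x y z i : ℤ_[p]) : ℚ_[p]) := by
    rw [hx, hy, hz]
    exact (h20_lin_map (PadicInt.Coe.ringHom (p := p)) m n x y z i).symm
  have hcom : com m n Q.x Q.y Q.z i = ((com m n x y z i : ℤ_[p]) : ℚ_[p]) := by
    rw [hx, hy, hz]
    exact (h20_com_map (PadicInt.Coe.ringHom (p := p)) m n x y z i).symm
  have hwZ : w ^ 2 = ((d : ℤ) : ℤ_[p]) * F m n x y z := by
    have h1 := Q.eq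
    rw [hx, hy, hz, hw] at h1
    have h2 : ((F m n x y z : ℤ_[p]) : ℚ_[p]) = F m n (x : ℚ_[p]) (y : ℚ_[p]) (z : ℚ_[p]) :=
      h20_F_map (PadicInt.Coe.ringHom (p := p)) m n x y z
    rw [← h2] at h1
    apply Subtype.ext
    push_cast
    exact h1
  have hkZ := h20_key (m := m) (n := n) (d := d) x y z w i hwZ
  have hkQ := h20_key (m := m) (n := n) (d := d) Q.x Q.y Q.z Q.w i Q.eq
  have hor : IsUnit (lin m n x y z i) ∨ IsUnit (com m n x y z i) := by
    by_contra hcon
    push Not at hcon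
    obtain ⟨c1, c2⟩ := hcon
    have e1 : lin m n (PadicInt.toZMod x) (PadicInt.toZMod y) (PadicInt.toZMod z) i = 0 := by
      rw [← h20_lin_map (PadicInt.toZMod (p := p)) m n x y z i]
      by_contra h
      exact c1 (h20_unit_of _ h)
    have e2 : com m n (PadicInt.toZMod x) (PadicInt.toZMod y) (PadicInt.toZMod z) i = 0 := by
      rw [← h20_com_map (PadicInt.toZMod (p := p)) m n x y z i]
      by_contra h
      exact c2 (h20_unit_of _ h)
    have hwm : (PadicInt.toZMod w) ^ 2 = ((d : ℤ) : ZMod p) *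
        F m n (PadicInt.toZMod x) (PadicInt.toZMod y) (PadicInt.toZMod z) := by
      rw [← h20_F_map (PadicInt.toZMod (p := p)) m n x y z, ← map_pow, hwZ, map_mul, map_intCast]
    have hk := h20_key (m := m) (n := n) (d := d) (PadicInt.toZMod x) (PadicInt.toZMod y)
      (PadicInt.toZMod z) (PadicInt.toZMod w) i hwm
    rw [e1, zero_mul] at hk
    have e3 : qua m n (PadicInt.toZMod x) (PadicInt.toZMod y) (PadicInt.toZMod z) i = 0 := by
      by_contra hq
      apply hs
      apply isSquare_int hp d hd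
      refine ⟨(scl m n i * PadicInt.toZMod w) /
        qua m n (PadicInt.toZMod x) (PadicInt.toZMod y) (PadicInt.toZMod z) i, ?_⟩
      field_simp
      linear_combination hk
    have hbK : ((bad m n : ℤ) : ZMod p) ≠ 0 := by
      intro h
      exact hb ((ZMod.intCast_zmod_eq_zero_iff_dvd _ p).1 h)
    obtain ⟨f1, f2, f3⟩ := no_common_zero hbK _ _ _ i e1 e2 e3
    rcases hu with h | h | h
    · exact (h.map (PadicInt.toZMod (p := p))).ne_zero f1
    · exact (h.map (PadicInt.toZMod (p := p))).ne_zero f2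
    · exact (h.map (PadicInt.toZMod (p := p))).ne_zero f3
  by_cases hL : IsUnit (lin m n x y z i)
  · have h0 : lin m n Q.x Q.y Q.z i ≠ 0 := by
      rw [hlin]
      exact h20_ne hL.ne_zero
    rw [ent, if_pos h0, hlin]
    exact isN_unit hp d hd _ hL
  · have hC : IsUnit (com m n x y z i) := hor.resolve_left hL
    have hdC : IsN ℚ_[p] (d : ℚ_[p]) ((d : ℚ_[p]) * com m n Q.x Q.y Q.z i) := by
      have h1 := isN_unit hp d hd _ (hdu.mul hC)
      rw [hcom]
      push_cast at h1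
      exact h1
    have hC0 : com m n Q.x Q.y Q.z i ≠ 0 := by
      rw [hcom]
      exact h20_ne hC.ne_zero
    by_cases h0 : lin m n Q.x Q.y Q.z i ≠ 0
    · rw [ent, if_pos h0]
      rw [← IsN.mul_iff (mul_ne_zero hdK hC0) hdC]
      refine ⟨scl m n i * Q.w, qua m n Q.x Q.y Q.z i, ?_⟩
      rw [← hkQ]
      ring
    · rw [ent, if_neg h0, if_pos hC0]
      exact hdC

/-- DQ-G -/
theorem good_inv {p : ℕ} [Fact p.Prime] {m n d : ℤ} (hb : ¬ (p : ℤ) ∣ bad m n)
    (hd : ¬ (p : ℤ) ∣ d) (P : Pt m n d ℚ_[p]) (T : Finset (Fin 7)) (hT : Even T.card) :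
    inv P T = 0 := by
  have hb0 : bad m n ≠ 0 := by
    intro h
    exact hb (h ▸ dvd_zero _)
  have hm : m ≠ 0 := by
    rintro rfl
    exact hb0 (by simp [bad])
  have hd0 : d ≠ 0 := by rintro rfl; exact hd (dvd_zero _)
  have hdK : (d : ℚ_[p]) ≠ 0 := by exact_mod_cast hd0
  have hp : p ≠ 2 := by
    rintro rfl
    apply hb
    refine ⟨m * n * (m ^ 2 - n ^ 2) * (m ^ 2 + n ^ 2) * kap m n, ?_⟩
    simp only [bad]
    push_cast
    ring
  by_cases hs : IsSquare (d : ℚ_[p])
  · exact (sq_place hm hd0 hs).1 P T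
  · obtain ⟨Q, x, y, z, w, hx, hy, hz, hw, hu, hinv⟩ := exists_primitive hb0 hd0 hs P
    rw [hinv T hT, inv_eq_zero_iff two_ne_zero hdK]
    refine Finset.prod_induction _ (fun a => IsN ℚ_[p] (d : ℚ_[p]) a) (fun a b ha hb => ha.mul hb)
      (IsN.one _) fun i _ => ?_
    exact h20_ent hp hb hd hs Q x y z w hx hy hz hw hu i

end Pool.Agent.Helper8.DP2
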